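import Pool.Agent.H66.ER2.Targets
import Pool.Agent.H66.ER2.Lib

/-! Row GSP of `er2_modules` (helper24). -/

set_option autoImplicit false

namespace Pool.Agent.H24.ER2

open Pool.Agent.H48.ER Pool.Agent.H52.ER2 Pool.Agent.H66.ER2

variable {V : Type} {G : SimpleGraph V} {p q : V} {a b : Fin 3 → V} {n : Fin 3 → ℕ}
  {P : Fin 3 → Set V}

/-- what we need from the prism in the contracted graph -/
structure Base (G : SimpleGraph V) (p q : V) (a b : Fin 3 → V) (n : Fin 3 → ℕ)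
    (P : Fin 3 → Set V) : Prop where
  ip1 : IP G (n 1) (a 1) (b 1) (P 1)
  ip2 : IP G (n 2) (a 2) (b 2) (P 2)
  e12 : ∀ u ∈ P 1, ∀ w ∈ P 2, G.Adj u w ↔ (u = a 1 ∧ w = a 2) ∨ (u = b 1 ∧ w = b 2)
  e01 : ∀ u ∈ P 0, u ≠ p → ∀ w ∈ P 1, G.Adj u w ↔ (u = a 0 ∧ w = a 1) ∨ (u = b 0 ∧ w = b 1)
  e02 : ∀ u ∈ P 0, u ≠ p → ∀ w ∈ P 2, G.Adj u w ↔ (u = a 0 ∧ w = a 2) ∨ (u = b 0 ∧ w = b 2)
  d01 : Disjoint (P 0) (P 1)
  d02 : Disjoint (P 0) (P 2)
  d12 : Disjoint (P 1) (P 2)

lemma base (h : Prism (ctr G p q) a b n P) (hp : p ∈ P 0) (hq : q ∉ ver P) :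
    Base G p q a b n P := by
  have hqn : ∀ i, ∀ u ∈ P i, u ≠ q := fun i u hu e => hq (e ▸ mem_ver hu)
  have h1p : ∀ i, i ≠ 0 → ∀ u ∈ P i, u ≠ p := fun i hi u hu =>
    h.ne_of_mem hi hu hp
  have hcg : ∀ i j, ∀ u ∈ P i, u ≠ p → ∀ w ∈ P j, w ≠ p →
      (G.Adj u w ↔ (ctr G p q).Adj u w) := by
    intro i j u hu hup w hw hwp
    exact (ctr_adj_of_ne hup (hqn i u hu) hwp (hqn j w hw)).symm
  refine ⟨?_, ?_, ?_, ?_, ?_, ?_, ?_, ?_⟩
  · exact (h.ip 1).congr fun u hu w hw =>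
      hcg 1 1 u hu (h1p 1 (by decide) u hu) w hw (h1p 1 (by decide) w hw)
  · exact (h.ip 2).congr fun u hu w hw =>
      hcg 2 2 u hu (h1p 2 (by decide) u hu) w hw (h1p 2 (by decide) w hw)
  · intro u hu w hw
    rw [hcg 1 2 u hu (h1p 1 (by decide) u hu) w hw (h1p 2 (by decide) w hw)]
    exact h.adj 1 2 (by decide) u hu w hw
  · intro u hu hup w hw
    rw [hcg 0 1 u hu hup w hw (h1p 1 (by decide) w hw)]
    exact h.adj 0 1 (by decide) u hu w hw
  · intro u hu hup w hw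
    rw [hcg 0 2 u hu hup w hw (h1p 2 (by decide) w hw)]
    exact h.adj 0 2 (by decide) u hu w hw
  · exact h.dis 0 1 (by decide)
  · exact h.dis 0 2 (by decide)
  · exact h.dis 1 2 (by decide)

/-- the conclusion -/
def Con (G : SimpleGraph V) (p q : V) : Prop :=
  ∃ (l r n' m' : ℕ) (a1 b1 a2 b2 a3 b3 : V) (L R P' Q' : Set V),
    SPr G l r n' m' a1 p b1 q a2 b2 a3 b3 L R P' Q' ∧
    ∀ w ∈ vS L R P' Q', ¬ (G.Adj p w ∧ G.Adj q w)

/-- the new vertex is an interior vertex -/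
lemma caseI (h : Prism (ctr G p q) a b n P) (hodd : ∀ i, Odd (n i)) (hp : p ∈ P 0)
    (hq : q ∉ ver P) (hpq : p ≠ q) (hnpq : ¬ G.Adj p q)
    (hW : ∀ c ∈ ver P, ¬ (G.Adj p c ∧ G.Adj q c))
    {u w : V} {k m : ℕ} {L R : Set V} (iL : IP G k (a 0) u L) (iR : IP G m w (b 0) R)
    (pL : p ∉ L) (pR : p ∉ R) (hP : P 0 = L ∪ {p} ∪ R) (hkm : k + m + 2 = n 0)
    (dLR : Disjoint L R) (nLR : NE G L R)
    (hpu : ∀ g ∈ ver P, g ≠ p → (G.Adj p g ↔ g = u))
    (hqw : ∀ g ∈ ver P, g ≠ p → (G.Adj q g ↔ g = w)) : Con G p q := by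
  have B := base h hp hq
  have hL0 : L ⊆ P 0 := by rw [hP]; intro v hv; exact Or.inl (Or.inl hv)
  have hR0 : R ⊆ P 0 := by rw [hP]; intro v hv; exact Or.inr hv
  have hLv : ∀ v ∈ L, v ∈ ver P := fun v hv => mem_ver (hL0 hv)
  have hRv : ∀ v ∈ R, v ∈ ver P := fun v hv => mem_ver (hR0 hv)
  have uL : u ∈ L := iL.right_mem
  have wR : w ∈ R := iR.left_mem
  have a0L : a 0 ∈ L := iL.left_mem
  have b0R : b 0 ∈ R := iR.right_mem
  have qL : q ∉ L := fun hx => hq (hLv q hx)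
  have qR : q ∉ R := fun hx => hq (hRv q hx)
  have hLp : ∀ v ∈ L, v ≠ p := fun v hv e => pL (e ▸ hv)
  have hRp : ∀ v ∈ R, v ≠ p := fun v hv e => pR (e ▸ hv)
  have h1p : ∀ v ∈ P 1, v ≠ p := fun v hv => h.ne_of_mem (by decide) hv hp
  have h2p : ∀ v ∈ P 2, v ≠ p := fun v hv => h.ne_of_mem (by decide) hv hp
  have hLR : ∀ v ∈ L, ∀ v' ∈ R, v ≠ v' := fun v hv v' hv' e =>
    Set.disjoint_left.1 dLR hv (e ▸ hv')
  have h01 : ∀ v ∈ P 0, ∀ v' ∈ P 1, v ≠ v' := fun v hv v' hv' => h.ne_of_mem (by decide) hv hv'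
  have h02 : ∀ v ∈ P 0, ∀ v' ∈ P 2, v ≠ v' := fun v hv v' hv' => h.ne_of_mem (by decide) hv hv'
  refine ⟨k + 1, m + 1, n 1, n 2, a 0, b 0, a 1, b 1, a 2, b 2, insert p L, insert q R, P 1, P 2,
    { ipL := ?_, ipR := ?_, ipP := B.ip1, ipQ := B.ip2, oLR := ?_, oP := hodd 1, oQ := hodd 2
      dLR := ?_, dLP := ?_, dLQ := ?_, dRP := ?_, dRQ := ?_, dPQ := B.d12
      eLR := ?_, eLP := ?_, eLQ := ?_, eRP := ?_, eRQ := ?_, ePQ := B.e12 }, ?_⟩
  · exact iL.snoc pL fun v hv => hpu v (hLv v hv) (hLp v hv)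
  · exact iR.rev.snoc qR fun v hv => hqw v (hRv v hv) (hRp v hv)
  · have e : k + 1 + (m + 1) = n 0 := by omega
    rw [e]
    exact hodd 0
  · rw [Set.disjoint_left]
    rintro v (rfl | hv) (e | hv')
    · exact hpq e
    · exact pR hv'
    · exact qL (e ▸ hv)
    · exact hLR v hv v hv' rfl
  · rw [Set.disjoint_left]
    rintro v (rfl | hv) hv'
    · exact h1p _ hv' rfl
    · exact h01 v (hL0 hv) v hv' rfl
  · rw [Set.disjoint_left]
    rintro v (rfl | hv) hv'
    · exact h2p _ hv' rfl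
    · exact h02 v (hL0 hv) v hv' rfl
  · rw [Set.disjoint_left]
    rintro v (rfl | hv) hv'
    · exact hq (mem_ver hv')
    · exact h01 v (hR0 hv) v hv' rfl
  · rw [Set.disjoint_left]
    rintro v (rfl | hv) hv'
    · exact hq (mem_ver hv')
    · exact h02 v (hR0 hv) v hv' rfl
  · rintro v (rfl | hv) v' (rfl | hv') e
    · exact hnpq e
    · rw [hpu v' (hRv v' hv') (hRp v' hv')] at e
      exact hLR u uL v' hv' e.symm
    · have e' := e.symm
      rw [hqw v (hLv v hv) (hLp v hv)] at e'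
      exact hLR v hv w wR e'
    · exact nLR v hv v' hv' e
  · rintro v (rfl | hv) v' hv'
    · rw [hpu v' (mem_ver hv') (h1p v' hv')]
      constructor
      · intro e
        exact absurd e.symm (h01 u (hL0 uL) v' hv')
      · rintro ⟨e, _⟩
        exact absurd a0L (e ▸ pL)
    · rw [B.e01 v (hL0 hv) (hLp v hv) v' hv']
      constructor
      · rintro (e | ⟨e, _⟩)
        · exact e
        · exact absurd e (hLR v hv _ b0R)
      · exact Or.inl
  · rintro v (rfl | hv) v' hv'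
    · rw [hpu v' (mem_ver hv') (h2p v' hv')]
      constructor
      · intro e
        exact absurd e.symm (h02 u (hL0 uL) v' hv')
      · rintro ⟨e, _⟩
        exact absurd a0L (e ▸ pL)
    · rw [B.e02 v (hL0 hv) (hLp v hv) v' hv']
      constructor
      · rintro (e | ⟨e, _⟩)
        · exact e
        · exact absurd e (hLR v hv _ b0R)
      · exact Or.inl
  · rintro v (rfl | hv) v' hv'
    · rw [hqw v' (mem_ver hv') (h1p v' hv')]
      constructor
      · intro e
        exact absurd e.symm (h01 w (hR0 wR) v' hv')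
      · rintro ⟨e, _⟩
        exact absurd b0R (e ▸ qR)
    · rw [B.e01 v (hR0 hv) (hRp v hv) v' hv']
      constructor
      · rintro (⟨e, _⟩ | e)
        · exact absurd e.symm (hLR _ a0L v hv)
        · exact e
      · exact Or.inr
  · rintro v (rfl | hv) v' hv'
    · rw [hqw v' (mem_ver hv') (h2p v' hv')]
      constructor
      · intro e
        exact absurd e.symm (h02 w (hR0 wR) v' hv')
      · rintro ⟨e, _⟩
        exact absurd b0R (e ▸ qR)
    · rw [B.e02 v (hR0 hv) (hRp v hv) v' hv']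
      constructor
      · rintro (⟨e, _⟩ | e)
        · exact absurd e.symm (hLR _ a0L v hv)
        · exact e
      · exact Or.inr
  · rintro v (((hv | hv) | hv) | hv)
    · rcases hv with rfl | hv
      · exact hW _ (mem_ver hp)
      · exact hW _ (hLv v hv)
    · rcases hv with rfl | hv
      · rintro ⟨_, e⟩
        exact G.loopless.irrefl _ e
      · exact hW _ (hRv v hv)
    · exact hW _ (mem_ver hv)
    · exact hW _ (mem_ver hv)

/-- a split prism with `L = {s}`; `{s, t} = {p, q}` -/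
lemma caseC (h : Prism (ctr G p q) a b n P) (hodd : ∀ i, Odd (n i)) (hp : p ∈ P 0)
    (hq : q ∉ ver P) {s t : V} (hst : s ≠ t) (hnst : ¬ G.Adj s t)
    (hs : s = p ∨ s = q) (ht : t = p ∨ t = q)
    {r : V} {m : ℕ} {R : Set V} (iR : IP G m r (b 0) R)
    (pR : p ∉ R) (pa : p = a 0) (hP : P 0 = insert p R) (hm : m + 1 = n 0)
    (hsa : ∀ g ∈ ver P, g ≠ p → (G.Adj s g ↔ ∃ j, j ≠ 0 ∧ g = a j))
    (htr : ∀ g ∈ ver P, g ≠ p → (G.Adj t g ↔ g = r)) :
    SPr G 0 (m + 1) (n 1) (n 2) s s (b 0) t (a 1) (b 1) (a 2) (b 2) {s} (insert t R)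
      (P 1) (P 2) := by
  have B := base h hp hq
  have hR0 : R ⊆ P 0 := by rw [hP]; intro v hv; exact Or.inr hv
  have hRv : ∀ v ∈ R, v ∈ ver P := fun v hv => mem_ver (hR0 hv)
  have rR : r ∈ R := iR.left_mem
  have b0R : b 0 ∈ R := iR.right_mem
  have qR : q ∉ R := fun hx => hq (hRv q hx)
  have sR : s ∉ R := by rcases hs with rfl | rfl <;> assumption
  have tR : t ∉ R := by rcases ht with rfl | rfl <;> assumption
  have hRp : ∀ v ∈ R, v ≠ p := fun v hv e => pR (e ▸ hv)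
  have h1p : ∀ v ∈ P 1, v ≠ p := fun v hv => h.ne_of_mem (by decide) hv hp
  have h2p : ∀ v ∈ P 2, v ≠ p := fun v hv => h.ne_of_mem (by decide) hv hp
  have h1q : ∀ v ∈ P 1, v ≠ q := fun v hv e => hq (e ▸ mem_ver hv)
  have h2q : ∀ v ∈ P 2, v ≠ q := fun v hv e => hq (e ▸ mem_ver hv)
  have s1 : s ∉ P 1 := by
    intro hx
    rcases hs with e | e
    · exact h1p s hx e
    · exact h1q s hx e
  have s2 : s ∉ P 2 := by
    intro hx
    rcases hs with e | e
    · exact h2p s hx e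
    · exact h2q s hx e
  have t1 : t ∉ P 1 := by
    intro hx
    rcases ht with e | e
    · exact h1p t hx e
    · exact h1q t hx e
  have t2 : t ∉ P 2 := by
    intro hx
    rcases ht with e | e
    · exact h2p t hx e
    · exact h2q t hx e
  have h01 : ∀ v ∈ P 0, ∀ v' ∈ P 1, v ≠ v' := fun v hv v' hv' => h.ne_of_mem (by decide) hv hv'
  have h02 : ∀ v ∈ P 0, ∀ v' ∈ P 2, v ≠ v' := fun v hv v' hv' => h.ne_of_mem (by decide) hv hv'
  have sP1 : ∀ v ∈ P 1, (G.Adj s v ↔ v = a 1) := by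
    intro v hv
    rw [hsa v (mem_ver hv) (h1p v hv)]
    constructor
    · rintro ⟨j, _, e⟩
      have : j = 1 := h.rung (e ▸ h.a_mem j : v ∈ P j) hv
      rw [e, this]
    · intro e
      exact ⟨1, by decide, e⟩
  have sP2 : ∀ v ∈ P 2, (G.Adj s v ↔ v = a 2) := by
    intro v hv
    rw [hsa v (mem_ver hv) (h2p v hv)]
    constructor
    · rintro ⟨j, _, e⟩
      have : j = 2 := h.rung (e ▸ h.a_mem j : v ∈ P j) hv
      rw [e, this]
    · intro e
      exact ⟨2, by decide, e⟩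
  exact
    { ipL := IP.zero s
      ipR := iR.rev.snoc tR fun v hv => htr v (hRv v hv) (hRp v hv)
      ipP := B.ip1
      ipQ := B.ip2
      oLR := by
        have e : 0 + (m + 1) = n 0 := by omega
        rw [e]
        exact hodd 0
      oP := hodd 1
      oQ := hodd 2
      dLR := by
        rw [Set.disjoint_singleton_left]
        rintro (e | hv)
        · exact hst e
        · exact sR hv
      dLP := by rw [Set.disjoint_singleton_left]; exact s1
      dLQ := by rw [Set.disjoint_singleton_left]; exact s2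
      dRP := by
        rw [Set.disjoint_left]
        rintro v (e | hv) hv'
        · exact t1 (e ▸ hv')
        · exact h01 v (hR0 hv) v hv' rfl
      dRQ := by
        rw [Set.disjoint_left]
        rintro v (e | hv) hv'
        · exact t2 (e ▸ hv')
        · exact h02 v (hR0 hv) v hv' rfl
      dPQ := B.d12
      eLR := by
        intro v hv v' hv' e
        rw [Set.mem_singleton_iff.1 hv] at e
        rcases hv' with e' | hv'
        · rw [e'] at e
          exact hnst e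
        · rw [hsa v' (hRv v' hv') (hRp v' hv')] at e
          obtain ⟨j, hj, e⟩ := e
          exact hj (h.rung (e ▸ h.a_mem j : v' ∈ P j) (hR0 hv'))
      eLP := by
        intro v hv v' hv'
        rw [Set.mem_singleton_iff.1 hv, sP1 v' hv']
        exact ⟨fun e => ⟨rfl, e⟩, fun e => e.2⟩
      eLQ := by
        intro v hv v' hv'
        rw [Set.mem_singleton_iff.1 hv, sP2 v' hv']
        exact ⟨fun e => ⟨rfl, e⟩, fun e => e.2⟩
      eRP := by
        rintro v (e0 | hv) v' hv'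
        · rw [e0, htr v' (mem_ver hv') (h1p v' hv')]
          constructor
          · intro e
            exact absurd e.symm (h01 r (hR0 rR) v' hv')
          · rintro ⟨e, _⟩
            exact absurd b0R (e ▸ tR)
        · rw [B.e01 v (hR0 hv) (hRp v hv) v' hv']
          constructor
          · rintro (⟨e, _⟩ | e)
            · exact absurd (e.trans pa.symm) (hRp v hv)
            · exact e
          · exact Or.inr
      eRQ := by
        rintro v (e0 | hv) v' hv'
        · rw [e0, htr v' (mem_ver hv') (h2p v' hv')]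
          constructor
          · intro e
            exact absurd e.symm (h02 r (hR0 rR) v' hv')
          · rintro ⟨e, _⟩
            exact absurd b0R (e ▸ tR)
        · rw [B.e02 v (hR0 hv) (hRp v hv) v' hv']
          constructor
          · rintro (⟨e, _⟩ | e)
            · exact absurd (e.trans pa.symm) (hRp v hv)
            · exact e
          · exact Or.inr
      ePQ := B.e12 }

/-- the corner case -/
lemma corner (hSPC : T_SPC) (hNOH : NOH G) (hNOP : NOP G) (hev : EvP G p q)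
    (h : Prism (ctr G p q) a b n P) (hodd : ∀ i, Odd (n i)) (pa : p = a 0)
    (hW : ∀ c ∈ ver P, ¬ (G.Adj p c ∧ G.Adj q c)) : Con G p q := by
  have hp : p ∈ P 0 := pa ▸ h.a_mem 0
  obtain ⟨hq, r, m, R, iR, pR, hP, hm, hc⟩ := hSPC V G p q a b n P 0 hNOH hNOP hev h hodd pa
  have hR0 : R ⊆ P 0 := by rw [hP]; intro v hv; exact Or.inr hv
  have hW' : ∀ w : V, (w = p ∨ w = q ∨ w ∈ ver P) → ¬ (G.Adj p w ∧ G.Adj q w) := by
    rintro w (rfl | rfl | hw)
    · exact fun e => G.loopless.irrefl _ e.1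
    · exact fun e => G.loopless.irrefl _ e.2
    · exact hW w hw
  rcases hc with ⟨h1, h2⟩ | ⟨h1, h2⟩
  · have S := caseC h hodd hp hq hev.1 hev.2.1 (Or.inl rfl) (Or.inr rfl) iR pR pa hP hm h1 h2
    refine ⟨_, _, _, _, _, _, _, _, _, _, _, _, _, _, S, ?_⟩
    rintro w (((hv | hv) | hv) | hv)
    · exact hW' w (Or.inl hv)
    · rcases hv with e | hv
      · exact hW' w (Or.inr (Or.inl e))
      · exact hW' w (Or.inr (Or.inr (mem_ver (hR0 hv))))
    · exact hW' w (Or.inr (Or.inr (mem_ver hv)))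
    · exact hW' w (Or.inr (Or.inr (mem_ver hv)))
  · have S := caseC h hodd hp hq hev.1.symm (fun e => hev.2.1 e.symm) (Or.inr rfl) (Or.inl rfl)
      iR pR pa hP hm h1 h2
    refine ⟨_, _, _, _, _, _, _, _, _, _, _, _, _, _, S.flip, ?_⟩
    rintro w (((hv | hv) | hv) | hv)
    · rcases hv with e | hv
      · exact hW' w (Or.inl e)
      · exact hW' w (Or.inr (Or.inr (mem_ver (hR0 hv))))
    · exact hW' w (Or.inr (Or.inl hv))
    · exact hW' w (Or.inr (Or.inr (mem_ver hv)))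
    · exact hW' w (Or.inr (Or.inr (mem_ver hv)))

/-- the case `p ∈ P 0` -/
lemma main (hSPI : T_SPI) (hSPC : T_SPC) (hNOH : NOH G) (hNOP : NOP G) (hev : EvP G p q)
    (h : Prism (ctr G p q) a b n P) (hodd : ∀ i, Odd (n i)) (hp : p ∈ P 0)
    (hW : ∀ c ∈ ver P, ¬ (G.Adj p c ∧ G.Adj q c)) : Con G p q := by
  by_cases pa : p = a 0
  · exact corner hSPC hNOH hNOP hev h hodd pa hW
  by_cases pb : p = b 0
  · exact corner hSPC hNOH hNOP hev h.flip hodd pb hW
  obtain ⟨hq, u, w, k, m, L, R, iL, iR, pL, pR, hP, hkm, dLR, nLR, hc⟩ :=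
    hSPI V G p q a b n P 0 hNOH hNOP hev h hodd hp pa pb
  rcases hc with ⟨h1, h2⟩ | ⟨h1, h2⟩
  · exact caseI h hodd hp hq hev.1 hev.2.1 hW iL iR pL pR hP hkm dLR nLR h1 h2
  · have hP' : P 0 = R ∪ {p} ∪ L := by
      rw [hP, Set.union_comm L, Set.union_comm ({p} ∪ L), ← Set.union_assoc]
    have nRL : NE G R L := fun x hx y hy e => nLR y hy x hx e.symm
    exact caseI h.flip hodd hp hq hev.1 hev.2.1 hW iR.rev iL.rev pR pL hP' (by omega) dLR.symm
      nRL h2 h1

theorem pf_GSP (hSPI : T_SPI) (hSPC : T_SPC) (hW1 : T_W1) : T_GSP := by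
  intro V G p q a b n P hNOH hNOP hev h hodd
  obtain ⟨⟨i, hi⟩, _, hW⟩ := hW1 V G p q a b n P hNOH hNOP hev h hodd
  have hσi : Function.Injective (Equiv.swap 0 i : Fin 3 → Fin 3) := (Equiv.swap 0 i).injective
  have hσs : Function.Surjective (Equiv.swap 0 i : Fin 3 → Fin 3) := (Equiv.swap 0 i).surjective
  have h' := h.perm (Equiv.swap 0 i) hσi
  refine main hSPI hSPC hNOH hNOP hev h' (fun j => hodd _) ?_ ?_
  · show p ∈ P (Equiv.swap 0 i 0)
    rw [Equiv.swap_apply_left]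
    exact hi
  · rw [ver_perm (P := P) (Equiv.swap 0 i) hσs]
    exact hW

end Pool.Agent.H24.ER2
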