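import Pool.Agent.H66.ER2.Targets
import Pool.Agent.H66.ER2.Lib

/-! Row REV of `er2_modules` (helper24). -/

set_option autoImplicit false

namespace Pool.Agent.H24.ER2

open Pool.Agent.H48.ER Pool.Agent.H52.ER2 Pool.Agent.H66.ER2

theorem pf_REV : T_REV := by
  intro V G v n z h
  have h2 : 2 ≤ n := h.two
  have e1 : n - (n - 1) = 1 := by omega
  refine ⟨?_, ?_, ?_, ?_⟩
  · refine { pf := h.pf.rev, two := h2, left := ?_, right := ?_, int := ?_, mn := h.mn }
    · show G.Adj v (z (n - 0))
      rw [Nat.sub_zero]
      exact h.right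
    · show G.Adj v (z (n - n))
      rw [Nat.sub_self]
      exact h.left
    · intro i h0 hn
      exact h.int (n - i) (by omega) (by omega)
  · ext w
    constructor
    · rintro ⟨i, h0, hn, rfl⟩
      exact ⟨n - i, by omega, by omega, rfl⟩
    · rintro ⟨i, h0, hn, rfl⟩
      refine ⟨n - i, by omega, by omega, ?_⟩
      show z (n - (n - i)) = z i
      congr 1
      omega
  · ext c
    constructor
    · rintro ⟨hv, hc, hi⟩
      refine ⟨hv, hc, ?_⟩
      intro i h0 h1 hadj
      refine hi (n - i) (by omega) (by omega) ?_
      show G.Adj c (z (n - (n - i)))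
      rw [show n - (n - i) = i by omega]
      exact hadj
    · rintro ⟨hv, hc, hi⟩
      refine ⟨hv, hc, ?_⟩
      intro i h0 h1
      exact hi (n - i) (by omega) (by omega)
  · ext c
    constructor
    · rintro ⟨hv, hc, hi⟩
      refine ⟨hv, ?_, ?_⟩
      · have hc' : G.Adj c (z (n - (n - 1))) := hc
        rw [e1] at hc'
        exact hc'
      · intro i h0 h1 hadj
        refine hi (n - i) (by omega) (by omega) ?_
        show G.Adj c (z (n - (n - i)))
        rw [show n - (n - i) = i by omega]
        exact hadj
    · rintro ⟨hv, hc, hi⟩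
      refine ⟨hv, ?_, ?_⟩
      · show G.Adj c (z (n - (n - 1)))
        rw [e1]
        exact hc
      · intro i h0 h1
        exact hi (n - i) (by omega) (by omega)

end Pool.Agent.H24.ER2
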